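import Pool.Agent.Helper42.RZ2.Basic
import Pool.Agent.Helper42.RZ2.St.R1
import Pool.Agent.Helper42.RZ2.St.R2
import Pool.Agent.Helper42.RZ2.St.R4a
import Pool.Agent.Helper42.RZ2.St.R4b
import Pool.Agent.Helper42.RZ2.St.R4c

/-! # RZ2-R4d: the kernel of the unit torus -/

set_option autoImplicit false

open MeasureTheory Set Metric Filter Topology
open scoped ENNReal

namespace Pool.Agent.Helper57.RZ2

open Pool.Agent.Helper42.RZ Pool.Agent.Helper42.RZ2

theorem dt_one_I : dt 1 Complex.I = 1 := by simp [dt]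

theorem GG_tendsto {s : ℝ} (h0 : 0 < s) (h2 : s < 2) (x : ℂ) :
    Tendsto (fun w => RS s w 1 Complex.I x) (𝓝[>] 0) (𝓝 (GG s x)) := by
  obtain ⟨G, hG⟩ := RS_tendsto h0 h2 (a := 1) (b := Complex.I) (by rw [dt_one_I]; norm_num) x
  exact tendsto_nhds_limUnder ⟨G, hG⟩

theorem measurable_phlv (s w : ℝ) (k : ℤ × ℤ) :
    Measurable fun x : ℂ => ENNReal.ofReal (ph s w ‖x + lv 1 Complex.I k‖) := by
  refine ENNReal.measurable_ofReal.comp ((measurable_ph s w).comp ?_)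
  exact (measurable_id.add_const _).norm

theorem LS_eq (s w : ℝ) (x : ℂ) : LS s w 1 Complex.I x =
    (∑' k : ℤ × ℤ, ENNReal.ofReal (ph s w ‖x + lv 1 Complex.I k‖)).toReal := by
  rw [ENNReal.tsum_toReal_eq (fun _ => ENNReal.ofReal_ne_top)]
  refine tsum_congr fun k => ?_
  rw [ENNReal.toReal_ofReal (ph_nonneg (norm_nonneg _))]

theorem measurable_LS (s w : ℝ) : Measurable (LS s w 1 Complex.I) := by
  have h : LS s w 1 Complex.I = fun x =>
      (∑' k : ℤ × ℤ, ENNReal.ofReal (ph s w ‖x + lv 1 Complex.I k‖)).toReal :=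
    funext fun x => LS_eq s w x
  rw [h]
  exact (Measurable.tsum fun k => measurable_phlv s w k).ennreal_toReal

theorem measurable_RS (s w : ℝ) : Measurable (RS s w 1 Complex.I) :=
  (measurable_LS s w).sub_const _

theorem LS_nonneg (s w : ℝ) (x : ℂ) : 0 ≤ LS s w 1 Complex.I x :=
  tsum_nonneg fun _ => ph_nonneg (norm_nonneg _)

theorem tendsto_seq : Tendsto (fun n : ℕ => 1 / ((n : ℝ) + 1)) atTop (𝓝[>] 0) :=
  tendsto_nhdsWithin_iff.2 ⟨tendsto_one_div_add_atTop_nhds_zero_nat,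
    Eventually.of_forall fun n => by simp only [mem_Ioi]; positivity⟩

theorem measurable_GG {s : ℝ} (h0 : 0 < s) (h2 : s < 2) : Measurable (GG s) := by
  refine measurable_of_tendsto_metrizable (f := fun n : ℕ => RS s (1 / ((n : ℝ) + 1)) 1 Complex.I)
    (fun n => measurable_RS _ _) ?_
  rw [tendsto_pi_nhds]
  intro x
  exact (GG_tendsto h0 h2 x).comp tendsto_seq

theorem eventually_small : ∀ᶠ w : ℝ in 𝓝[>] 0, 0 < w ∧ w ≤ 1 := by
  filter_upwards [Ioc_mem_nhdsGT (show (0 : ℝ) < 1 by norm_num)] with w hw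
  exact hw

theorem tendsto_ph (s : ℝ) (r : ℝ) : Tendsto (fun w => ph s w r) (𝓝[>] 0) (𝓝 (K s r)) := by
  have hc : Continuous fun w : ℝ => ph s w r := by unfold ph; fun_prop
  have h := hc.tendsto 0
  have e : ph s 0 r = K s r := by simp [ph]
  rw [e] at h
  exact h.mono_left nhdsWithin_le_nhds

/-- the majorant -/
noncomputable def maj (s : ℝ) (x : ℂ) : ℝ :=
  ∑ k ∈ Finset.Icc (-1 : ℤ) 1 ×ˢ Finset.Icc (-1 : ℤ) 1, K s ‖x + lv 1 Complex.I k‖

theorem K_nonneg (s : ℝ) {r : ℝ} (hr : 0 ≤ r) : 0 ≤ K s r := Real.rpow_nonneg hr _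

theorem maj_nonneg (s : ℝ) (x : ℂ) : 0 ≤ maj s x :=
  Finset.sum_nonneg fun _ _ => K_nonneg s (norm_nonneg _)

theorem measurable_K (s : ℝ) : Measurable (K s) := by
  unfold K; exact measurable_id.pow_const _

theorem measurable_maj (s : ℝ) : Measurable (maj s) := by
  unfold maj
  exact Finset.measurable_fun_sum _ fun k _ => (measurable_K s).comp (measurable_id.add_const _).norm

theorem GG_bounds' {s : ℝ} (h0 : 0 < s) (h2 : s < 2) : ∃ C : ℝ, 0 < C ∧
    (∀ w : ℝ, 0 < w → w ≤ 1 → ∀ x : ℂ, |x.re| ≤ 1 → |x.im| ≤ 1 →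
      |RS s w 1 Complex.I x| ≤ C + maj s x) ∧
    (∀ x : ℂ, |x.re| ≤ 1 → |x.im| ≤ 1 → -C ≤ GG s x ∧ |GG s x| ≤ C + maj s x) ∧
    (∀ x : ℂ, |x.re| ≤ 1 / 2 → |x.im| ≤ 1 / 2 → |GG s x - K s ‖x‖| ≤ C) := by
  obtain ⟨C, hC, h⟩ := RS_bounds h0 h2
  have h1 : ∀ w : ℝ, 0 < w → w ≤ 1 → ∀ x : ℂ, |x.re| ≤ 1 → |x.im| ≤ 1 →
      |RS s w 1 Complex.I x| ≤ C + maj s x := by
    intro w hw hw1 x hx hy
    obtain ⟨h3, h4⟩ := (h w hw hw1).1 x hx hy
    rw [abs_le]
    exact ⟨by linarith [maj_nonneg s x], h4⟩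
  refine ⟨C, hC, h1, fun x hx hy => ⟨?_, ?_⟩, fun x hx hy => ?_⟩
  · refine ge_of_tendsto (GG_tendsto h0 h2 x) ?_
    filter_upwards [eventually_small] with w hw
    exact ((h w hw.1 hw.2).1 x hx hy).1
  · refine le_of_tendsto (GG_tendsto h0 h2 x).abs ?_
    filter_upwards [eventually_small] with w hw
    exact h1 w hw.1 hw.2 x hx hy
  · refine le_of_tendsto ((GG_tendsto h0 h2 x).sub (tendsto_ph s ‖x‖)).abs ?_
    filter_upwards [eventually_small] with w hw
    exact (h w hw.1 hw.2).2 x hx hy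

theorem GG_bounds {s : ℝ} (h0 : 0 < s) (h2 : s < 2) : ∃ C : ℝ, 0 < C ∧
    (∀ x : ℂ, |x.re| ≤ 1 → |x.im| ≤ 1 → -C ≤ GG s x) ∧
    (∀ x : ℂ, |x.re| ≤ 1 / 2 → |x.im| ≤ 1 / 2 → |GG s x - K s ‖x‖| ≤ C) := by
  obtain ⟨C, hC, -, h1, h3⟩ := GG_bounds' h0 h2
  exact ⟨C, hC, fun x hx hy => (h1 x hx hy).1, h3⟩

/-- integration over the fundamental domain -/
theorem lintegral_tau {f : ℂ → ℝ≥0∞} (hf : Measurable f) :
    ∫⁻ x, f x ∂tau = ∫⁻ u in Sq, f (u.1 * 1 + u.2 * Complex.I) := by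
  have h := (Complex.volume_preserving_equiv_real_prod.symm).setLIntegral_comp_preimage
    (s := Fd) (f := f) measurableSet_Fd hf
  rw [tau, ← h]
  have e : Complex.measurableEquivRealProd.symm ⁻¹' Fd = Sq := by
    rw [Fd_eq, ← preimage_comp]
    simp
  rw [e]
  refine lintegral_congr fun u => ?_
  congr 1
  apply Complex.ext <;> simp [Complex.measurableEquivRealProd_symm_apply]

theorem diff_mem {x z : ℂ} (hx : x ∈ Fd) (hz : z ∈ Fd) : |(x - z).re| ≤ 1 ∧ |(x - z).im| ≤ 1 := by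
  obtain ⟨⟨h1, h2⟩, h3, h4⟩ := hx
  obtain ⟨⟨h5, h6⟩, h7, h8⟩ := hz
  rw [Complex.sub_re, Complex.sub_im, abs_le, abs_le]
  exact ⟨⟨by linarith, by linarith⟩, by linarith, by linarith⟩

theorem ae_mem : ∀ᵐ q : ℂ × ℂ ∂(tau.prod tau), q.1 ∈ Fd ∧ q.2 ∈ Fd := by
  rw [tau, Measure.prod_restrict]
  exact (ae_restrict_mem (measurableSet_Fd.prod measurableSet_Fd)).mono fun q hq => ⟨hq.1, hq.2⟩

theorem integrable_maj {s : ℝ} (h0 : 0 < s) (h2 : s < 2) :
    Integrable (fun q : ℂ × ℂ => maj s (q.1 - q.2)) (tau.prod tau) := by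
  obtain ⟨C, hC, h⟩ := cell_bound h0 h2 (a := 1) (b := Complex.I) (by rw [dt_one_I]; norm_num)
  unfold maj
  refine integrable_finsetSum _ fun k _ => ?_
  have hm : Measurable fun q : ℂ × ℂ => K s ‖q.1 - q.2 + lv 1 Complex.I k‖ :=
    (measurable_K s).comp ((measurable_fst.sub measurable_snd).add_const _).norm
  refine ⟨hm.aestronglyMeasurable, ?_⟩
  rw [hasFiniteIntegral_iff_ofReal (Eventually.of_forall fun q => K_nonneg s (norm_nonneg _))]
  have hm' : Measurable fun q : ℂ × ℂ =>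
      ENNReal.ofReal (K s ‖q.1 - q.2 + lv 1 Complex.I k‖) := ENNReal.measurable_ofReal.comp hm
  rw [lintegral_prod_symm _ hm'.aemeasurable]
  refine lt_of_le_of_lt (b := ∫⁻ _z : ℂ, ENNReal.ofReal C ∂tau) (lintegral_mono fun z => ?_) ?_
  · have hm2 : Measurable fun x : ℂ => ENNReal.ofReal (K s ‖x - z + lv 1 Complex.I k‖) :=
      ENNReal.measurable_ofReal.comp (hm.comp measurable_prodMk_right)
    rw [lintegral_tau hm2]
    obtain ⟨hi, hle⟩ := h (-z + lv 1 Complex.I k)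
    rw [← ofReal_integral_eq_lintegral_ofReal]
    · refine ENNReal.ofReal_le_ofReal (le_of_eq_of_le ?_ hle)
      refine integral_congr_ae (Eventually.of_forall fun u => ?_)
      simp only
      congr 2
      ring
    · refine hi.congr (Eventually.of_forall fun u => ?_)
      simp only
      congr 2
      ring
    · exact Eventually.of_forall fun u => K_nonneg s (norm_nonneg _)
  · rw [lintegral_const, measure_univ, mul_one]
    exact ENNReal.ofReal_lt_top

theorem GG_integrable {s : ℝ} (h0 : 0 < s) (h2 : s < 2) :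
    Integrable (fun q : ℂ × ℂ => GG s (q.1 - q.2)) (tau.prod tau) := by
  obtain ⟨C, hC, -, h1, -⟩ := GG_bounds' h0 h2
  refine Integrable.mono' ((integrable_const C).add (integrable_maj h0 h2))
    ((measurable_GG h0 h2).comp (measurable_fst.sub measurable_snd)).aestronglyMeasurable ?_
  filter_upwards [ae_mem] with q hq
  obtain ⟨h3, h4⟩ := diff_mem hq.1 hq.2
  exact (h1 _ h3 h4).2

theorem bk_nonneg {s w : ℝ} (h2 : s < 2) (hw : 0 < w) : 0 ≤ bk s w := by
  unfold bk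
  have := Real.Gamma_nonneg_of_nonneg (s := 2 - s) (by linarith)
  positivity

theorem lintegral_LS {s w : ℝ} (h0 : 0 < s) (h2 : s < 2) (hw : 0 < w) (z : ℂ) :
    ∫⁻ x, ENNReal.ofReal (LS s w 1 Complex.I (x - z)) ∂tau = ENNReal.ofReal (bk s w) := by
  have hdt : dt 1 Complex.I ≠ 0 := by rw [dt_one_I]; norm_num
  have h1 : ∀ x : ℂ, ENNReal.ofReal (LS s w 1 Complex.I (x - z)) =
      ∑' k : ℤ × ℤ, ENNReal.ofReal (ph s w ‖x - z + lv 1 Complex.I k‖) := fun x =>
    ENNReal.ofReal_tsum_of_nonneg (fun _ => ph_nonneg (norm_nonneg _))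
      (summable_ph h0 hw hdt (x - z))
  simp_rw [h1]
  have hmk : ∀ k : ℤ × ℤ, Measurable fun x : ℂ =>
      ENNReal.ofReal (ph s w ‖x - z + lv 1 Complex.I k‖) := fun k =>
    (measurable_phlv s w k).comp (measurable_id.sub_const z)
  rw [lintegral_tsum fun k => (hmk k).aemeasurable]
  simp_rw [fun k => lintegral_tau (hmk k)]
  have hf : Measurable fun z : ℂ => ENNReal.ofReal (ph s w ‖z‖) :=
    ENNReal.measurable_ofReal.comp ((measurable_ph s w).comp measurable_norm)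
  have h3 := tiling hdt (-z) hf
  rw [dt_one_I, abs_one, inv_one, ENNReal.ofReal_one, one_mul,
    ← ofReal_integral_eq_lintegral_ofReal (integrable_ph h2 hw)
      (Eventually.of_forall fun z => ph_nonneg (norm_nonneg _)), integral_ph h2 hw] at h3
  rw [← h3]
  refine tsum_congr fun k => lintegral_congr fun u => ?_
  congr 3
  ring

theorem integrable_LS {s w : ℝ} (h0 : 0 < s) (h2 : s < 2) (hw : 0 < w) (z : ℂ) :
    Integrable (fun x => LS s w 1 Complex.I (x - z)) tau := by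
  have hm : Measurable fun x : ℂ => LS s w 1 Complex.I (x - z) :=
    (measurable_LS s w).comp (measurable_id.sub_const z)
  refine ⟨hm.aestronglyMeasurable, ?_⟩
  rw [hasFiniteIntegral_iff_ofReal (Eventually.of_forall fun x => LS_nonneg s w _),
    lintegral_LS h0 h2 hw z]
  exact ENNReal.ofReal_lt_top

theorem integral_LS {s w : ℝ} (h0 : 0 < s) (h2 : s < 2) (hw : 0 < w) (z : ℂ) :
    ∫ x, LS s w 1 Complex.I (x - z) ∂tau = bk s w := by
  rw [integral_eq_lintegral_of_nonneg_ae (Eventually.of_forall fun x => LS_nonneg s w _)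
    (integrable_LS h0 h2 hw z).1, lintegral_LS h0 h2 hw z, ENNReal.toReal_ofReal (bk_nonneg h2 hw)]

theorem GG_mean {s : ℝ} (h0 : 0 < s) (h2 : s < 2) :
    ∫ q : ℂ × ℂ, GG s (q.1 - q.2) ∂(tau.prod tau) = 0 := by
  obtain ⟨C, hC, hRS, h1, -⟩ := GG_bounds' h0 h2
  have hdom := (integrable_const C (μ := tau.prod tau)).add (integrable_maj h0 h2)
  have hmeas : ∀ w : ℝ, AEStronglyMeasurable (fun q : ℂ × ℂ => RS s w 1 Complex.I (q.1 - q.2))
      (tau.prod tau) := fun w =>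
    ((measurable_RS s w).comp (measurable_fst.sub measurable_snd)).aestronglyMeasurable
  have hb : ∀ w : ℝ, 0 < w → w ≤ 1 → ∀ᵐ q : ℂ × ℂ ∂(tau.prod tau),
      ‖RS s w 1 Complex.I (q.1 - q.2)‖ ≤ C + maj s (q.1 - q.2) := by
    intro w hw hw1
    filter_upwards [ae_mem] with q hq
    obtain ⟨h3, h4⟩ := diff_mem hq.1 hq.2
    exact hRS w hw hw1 _ h3 h4
  have hzero : ∀ w : ℝ, 0 < w → w ≤ 1 →
      ∫ q : ℂ × ℂ, RS s w 1 Complex.I (q.1 - q.2) ∂(tau.prod tau) = 0 := by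
    intro w hw hw1
    rw [integral_prod_symm _ (hdom.mono' (hmeas w) (hb w hw hw1))]
    have hin : ∀ z : ℂ, ∫ x, RS s w 1 Complex.I (x - z) ∂tau = 0 := by
      intro z
      unfold RS
      rw [integral_sub (integrable_LS h0 h2 hw z) (integrable_const _), integral_LS h0 h2 hw z,
        integral_const, dt_one_I]
      simp
    simp [hin]
  have hlim : Tendsto (fun w => ∫ q : ℂ × ℂ, RS s w 1 Complex.I (q.1 - q.2) ∂(tau.prod tau))
      (𝓝[>] 0) (𝓝 (∫ q : ℂ × ℂ, GG s (q.1 - q.2) ∂(tau.prod tau))) := by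
    refine tendsto_integral_filter_of_dominated_convergence (fun q => C + maj s (q.1 - q.2))
      (Eventually.of_forall hmeas) ?_ hdom
      (Eventually.of_forall fun q => GG_tendsto h0 h2 _)
    filter_upwards [eventually_small] with w hw
    exact hb w hw.1 hw.2
  refine tendsto_nhds_unique hlim ((tendsto_const_nhds (x := (0 : ℝ))).congr' ?_)
  filter_upwards [eventually_small] with w hw
  exact (hzero w hw.1 hw.2).symm

end Pool.Agent.Helper57.RZ2
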